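import Pool.Agent.helper83.LS.Spec

set_option autoImplicit false

namespace LSH

theorem EM (hZP : ZP_stmt) (hSG : SG_stmt) (hTR : TR_stmt) (hOB : OB_stmt) : EM_stmt := by
  classical
  intro n T hT r t hroot hnd hall hedg P hPc hP d hd
  obtain ⟨hshape, hpts, hpw⟩ := hd
  obtain ⟨f, b, hf1, hf2, hf3⟩ := hZP (Fin n) t d hnd hshape
  obtain ⟨hOB1, hOB2, hOB3, hOB4⟩ := hOB
  have hmap : (t.verts.map f).Nodup := by
    have h1 : ((t.verts.map f : List Pt) : Multiset Pt).Nodup := by
      rw [hf1, hpts]; exact P.nodup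
    exact Multiset.coe_nodup.1 h1
  have hinj : Function.Injective f := by
    intro u v huv
    exact List.inj_on_of_nodup_map hmap (hall u) (hall v) huv
  have hmem : ∀ i, f i ∈ P := by
    intro i
    have h1 : f i ∈ ((t.verts.map f : List Pt) : Multiset Pt) :=
      Multiset.mem_coe.2 (List.mem_map_of_mem (hall i))
    rw [hf1, hpts] at h1
    exact h1
  obtain ⟨hTR1, -, -⟩ := hTR n T hT r
  have hpw2 : t.edg.Pairwise (fun e e' : Fin n × Fin n =>
      NC (⟨f e.1, f e.2, b e.2⟩ : Edge) (⟨f e'.1, f e'.2, b e'.2⟩ : Edge)) := by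
    rw [hf3] at hpw
    exact List.pairwise_map.1 hpw
  have hNC : ∀ e ∈ t.edg, ∀ e' ∈ t.edg, e ≠ e' →
      NC (⟨f e.1, f e.2, b e.2⟩ : Edge) (⟨f e'.1, f e'.2, b e'.2⟩ : Edge) := by
    intro e he e' he' hne
    have : Std.Symm (fun e e' : Fin n × Fin n =>
      NC (⟨f e.1, f e.2, b e.2⟩ : Edge) (⟨f e'.1, f e'.2, b e'.2⟩ : Edge)) :=
      ⟨fun x y h => hOB4 _ _ h⟩
    exact List.Pairwise.forall hpw2 he he' hne
  let c : Fin n → Fin n → ℝ × ℝ := fun u v =>
    if T.dist r v = T.dist r u + 1 then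
      (if b v = true then ((f v).1, (f u).2) else ((f u).1, (f v).2))
    else
      (if b u = true then ((f u).1, (f v).2) else ((f v).1, (f u).2))
  have hc1 : ∀ u v, T.dist r v = T.dist r u + 1 → c u v =
      (if b v = true then ((f v).1, (f u).2) else ((f u).1, (f v).2)) := by
    intro u v h
    show (if T.dist r v = T.dist r u + 1 then _ else _) = _
    rw [if_pos h]
  have hc2 : ∀ u v, T.dist r u = T.dist r v + 1 → c u v =
      (if b u = true then ((f u).1, (f v).2) else ((f v).1, (f u).2)) := by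
    intro u v h
    show (if T.dist r v = T.dist r u + 1 then _ else _) = _
    rw [if_neg (by omega)]
  have hkey : ∀ u v, T.Adj u v → ∃ x y : Fin n, (x, y) ∈ t.edg ∧
      ((x = u ∧ y = v) ∨ (x = v ∧ y = u)) ∧
      ∀ z, z ∈ segment ℝ (f u) (c u v) ∪ segment ℝ (c u v) (f v) ↔
        (⟨f x, f y, b y⟩ : Edge).on z := by
    intro u v huv
    rcases hTR1 u v huv with h | h
    · refine ⟨u, v, (hedg u v).2 ⟨huv, h⟩, Or.inl ⟨rfl, rfl⟩, fun z => ?_⟩
      rw [hc1 u v h]
      cases hb : b v with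
      | true =>
        rw [if_pos rfl]
        exact ((hSG (f u) (f v) z).1).symm
      | false =>
        rw [if_neg (by decide)]
        exact ((hSG (f u) (f v) z).2).symm
    · refine ⟨v, u, (hedg v u).2 ⟨huv.symm, h⟩, Or.inr ⟨rfl, rfl⟩, fun z => ?_⟩
      rw [hc2 u v h]
      cases hb : b u with
      | true =>
        rw [if_pos rfl, Set.union_comm, segment_symm ℝ _ (f v), segment_symm ℝ (f u)]
        exact ((hSG (f v) (f u) z).1).symm
      | false =>
        rw [if_neg (by decide), Set.union_comm, segment_symm ℝ _ (f v), segment_symm ℝ (f u)]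
        exact ((hSG (f v) (f u) z).2).symm
  refine ⟨f, c, hinj, hmem, ?_, ?_, ?_⟩
  · intro u v huv
    rcases hTR1 u v huv with h | h
    · refine ⟨?_, ?_⟩
      · rw [hc1 u v h, hc2 v u h]
      · rw [hc1 u v h]
        by_cases hb : b v = true
        · right
          rw [if_pos hb]
        · left
          rw [if_neg hb]
    · refine ⟨?_, ?_⟩
      · rw [hc2 u v h, hc1 v u h]
      · rw [hc2 u v h]
        by_cases hb : b u = true
        · left
          rw [if_pos hb]
        · right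
          rw [if_neg hb]
  · intro u v w huv hwu hwv hw
    obtain ⟨x, y, -, hxy, hz⟩ := hkey u v huv
    have h1 := (hz (f w)).1 hw
    have h2 := hOB2 (P : Set Pt) (⟨f x, f y, b y⟩ : Edge) (f w) hP (hmem x) (hmem y) (hmem w) h1
    rcases h2 with h2 | h2
    · have h3 : w = x := hinj h2
      rcases hxy with ⟨rfl, rfl⟩ | ⟨rfl, rfl⟩
      · exact hwu h3
      · exact hwv h3
    · have h3 : w = y := hinj h2
      rcases hxy with ⟨rfl, rfl⟩ | ⟨rfl, rfl⟩
      · exact hwv h3
      · exact hwu h3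
  · intro u v u' v' huv huv' hne1 hne2 z hzz
    obtain ⟨x, y, hxye, hxy, hz⟩ := hkey u v huv
    obtain ⟨x', y', hxye', hxy', hz'⟩ := hkey u' v' huv'
    have hne : (x, y) ≠ (x', y') := by
      intro heq
      have h1 : x = x' := congrArg Prod.fst heq
      have h2 : y = y' := congrArg Prod.snd heq
      subst h1 h2
      rcases hxy with ⟨rfl, rfl⟩ | ⟨rfl, rfl⟩
      · rcases hxy' with ⟨rfl, rfl⟩ | ⟨rfl, rfl⟩
        · exact hne1 ⟨rfl, rfl⟩
        · exact hne2 ⟨rfl, rfl⟩
      · rcases hxy' with ⟨rfl, rfl⟩ | ⟨rfl, rfl⟩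
        · exact hne2 ⟨rfl, rfl⟩
        · exact hne1 ⟨rfl, rfl⟩
    have hnc := hNC (x, y) hxye (x', y') hxye' hne z ((hz z).1 hzz.1) ((hz' z).1 hzz.2)
    have hA : z = f u ∨ z = f v := by
      rcases hxy with ⟨rfl, rfl⟩ | ⟨rfl, rfl⟩
      · exact hnc.1
      · exact hnc.1.symm
    have hB : z = f u' ∨ z = f v' := by
      rcases hxy' with ⟨rfl, rfl⟩ | ⟨rfl, rfl⟩
      · exact hnc.2
      · exact hnc.2.symm
    exact ⟨hA, hB⟩

end LSH
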